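import Pool.Agent.Q211.FS.Nar4

/-!
# A narrow forcing that is not uniformly narrow

In a certain model of ZF there is a forcing that is `ω`-narrow but not uniformly `ω`-narrow.

The model is the symmetric submodel of `Pool.Agent.Q211.FS.Mod`: for every natural number `n` we add
an infinite set `Γ n` of mutually generic surjections from `ω` to the cardinal `ℵ n` of the ground
model, but no enumeration of this set. The forcing consists of the finite partial functions `p` on
the union of the sets `Γ n` such that `p x` is less than the `ℵ (n + 1)` of the ground model
for `x` in `Γ n`.

A sequence of partial homomorphisms has a finite support `e`, and the value at `p` only depends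
on the restriction of `p` to `e`. There are only countably many such restrictions. A function `G`
as in the definition of uniformly narrow forcings would have a finite support; for large `n` and
`x` in `Γ n` it would give an injection from `ℵ (n + 1)` to `ω` whose support is the support of `G`
together with `x`, but this contradicts the cardinality of the corresponding notion of forcing.
-/

set_option autoImplicit false

namespace Pool.Agent.Results.MP_0f0156_lc.NarrowNotUniform

open Pool.Agent.W868 Pool.Agent.W868.PName Pool.Agent.Q211.SY Pool.Agent.Q211.FS

/-- There are a countable transitive model of ZF and a forcing in it that is `ω`-narrow but not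
uniformly `ω`-narrow in this model. -/
theorem result : ∃ M : Set ZFSet.{0}, M.Countable ∧ IsZF M ∧
    ∃ P ∈ M, ∃ R ∈ M, IsForcing P R ∧ NarrowIn M ZFSet.omega P R ∧
      ¬ UniformlyNarrowIn M ZFSet.omega P R := by
  obtain ⟨π, h⟩ := exists_mod2
  have hM := h.isZF
  exact ⟨_, IsMod.countable π, hM, _, FinP_mem hM h.lam_mem, _, FinR_mem hM h.lam_mem,
    isForcing hM h.lam_mem, h.narrow, h.not_uniform⟩

end Pool.Agent.Results.MP_0f0156_lc.NarrowNotUniform
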